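import Mathlib
import Pool.Agent.D0H41.LP.Stm

/-!
LP, module ONE, part 1: the number of hit classes modulo a prime.
-/

set_option autoImplicit false

namespace Pool.Agent.D0H34.LP

open Finset Pool.Agent.D0H41.LP

/-- residues in `range q` and elements of `ZMod q` -/
theorem card_range_zmod (q : ℕ) [Fact q.Prime] (p : ZMod q → Prop) [DecidablePred p] :
    ((range q).filter fun r : ℕ => p (r : ZMod q)).card = (univ.filter p).card := by
  apply card_bij (fun (r : ℕ) _ => (r : ZMod q))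
  · intro r hr
    rw [mem_filter] at hr ⊢
    exact ⟨mem_univ _, hr.2⟩
  · intro r hr r' hr' h
    rw [mem_filter, mem_range] at hr hr'
    have h1 := (ZMod.natCast_eq_natCast_iff' r r' q).1 h
    rwa [Nat.mod_eq_of_lt hr.1, Nat.mod_eq_of_lt hr'.1] at h1
  · intro u hu
    rw [mem_filter] at hu
    refine ⟨u.val, ?_, ZMod.natCast_zmod_val u⟩
    rw [mem_filter, mem_range]
    exact ⟨ZMod.val_lt u, by rw [ZMod.natCast_zmod_val]; exact hu.2⟩

theorem card_Ico_zmod (q : ℕ) [Fact q.Prime] (p : ZMod q × ZMod q → Prop) [DecidablePred p] :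
    ((Ico (0 : ℤ) q ×ˢ Ico (0 : ℤ) q).filter fun t => p ((t.1 : ZMod q), (t.2 : ZMod q))).card =
      (univ.filter p).card := by
  have hq : (0 : ℤ) < q := by exact_mod_cast (Fact.out : q.Prime).pos
  have hinj : ∀ r ∈ Ico (0 : ℤ) q, ∀ r' ∈ Ico (0 : ℤ) q, (r : ZMod q) = r' → r = r' := by
    intro r hr r' hr' h
    rw [mem_Ico] at hr hr'
    have h1 := (ZMod.intCast_eq_intCast_iff' r r' q).1 h
    rwa [Int.emod_eq_of_lt hr.1 hr.2, Int.emod_eq_of_lt hr'.1 hr'.2] at h1
  apply card_bij (fun t _ => ((t.1 : ZMod q), (t.2 : ZMod q)))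
  · intro t ht
    rw [mem_filter] at ht ⊢
    exact ⟨mem_univ _, ht.2⟩
  · intro t ht t' ht' h
    rw [mem_filter, mem_product] at ht ht'
    rw [Prod.mk.injEq] at h
    exact Prod.ext (hinj _ ht.1.1 _ ht'.1.1 h.1) (hinj _ ht.1.2 _ ht'.1.2 h.2)
  · intro u hu
    rw [mem_filter] at hu
    have h1 : ∀ v : ZMod q, (((v.val : ℕ) : ℤ) : ZMod q) = v := fun v => by
      rw [Int.cast_natCast]; exact ZMod.natCast_zmod_val v
    have h2 : ∀ v : ZMod q, ((v.val : ℕ) : ℤ) ∈ Ico (0 : ℤ) q := fun v => by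
      rw [mem_Ico]
      exact ⟨by positivity, by exact_mod_cast ZMod.val_lt v⟩
    refine ⟨(((u.1.val : ℕ) : ℤ), ((u.2.val : ℕ) : ℤ)), ?_, ?_⟩
    · rw [mem_filter, mem_product]
      refine ⟨⟨h2 _, h2 _⟩, ?_⟩
      simp only [h1]
      exact hu.2
    · simp only [h1]

theorem rt_zmod (a q : ℕ) [Fact q.Prime] :
    rt a q = (univ.filter fun r : ZMod q => r ^ 2 + a = 0).card := by
  rw [← card_range_zmod q (fun r : ZMod q => r ^ 2 + a = 0)]
  unfold rt
  congr 1
  apply filter_congr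
  intro r _
  rw [← ZMod.natCast_eq_zero_iff]
  push_cast
  rfl

theorem rF_zmod (q : ℕ) [Fact q.Prime] :
    rF q = (univ.filter fun r : ZMod q => (r ^ 2 + 1) * (r ^ 2 + 3) = 0).card := by
  rw [← card_range_zmod q (fun r : ZMod q => (r ^ 2 + 1) * (r ^ 2 + 3) = 0)]
  unfold rF F
  congr 1
  apply filter_congr
  intro r _
  rw [← ZMod.natCast_eq_zero_iff]
  push_cast
  rfl

/-- scaling by a nonzero element -/
theorem card_scale (q : ℕ) [Fact q.Prime] (c : ZMod q) (hc : c ≠ 0) (p p' : ZMod q → Prop)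
    [DecidablePred p] [DecidablePred p'] (h : ∀ r, p r ↔ p' (c * r)) :
    (univ.filter p).card = (univ.filter p').card := by
  apply card_bij (fun r _ => c * r)
  · intro r hr
    rw [mem_filter] at hr ⊢
    exact ⟨mem_univ _, (h r).1 hr.2⟩
  · intro r _ r' _ h'
    exact mul_left_cancel₀ hc h'
  · intro u hu
    rw [mem_filter] at hu
    refine ⟨c⁻¹ * u, ?_, by rw [mul_inv_cancel_left₀ hc]⟩
    rw [mem_filter]
    refine ⟨mem_univ _, (h _).2 ?_⟩
    rw [mul_inv_cancel_left₀ hc]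
    exact hu.2

/-- affine substitution -/
theorem card_affine (q : ℕ) [Fact q.Prime] (c d : ZMod q) (hc : c ≠ 0) (p' : ZMod q → Prop)
    [DecidablePred p'] :
    (univ.filter fun s => p' (c * s + d)).card = (univ.filter p').card := by
  apply card_bij (fun r _ => c * r + d)
  · intro r hr
    rw [mem_filter] at hr ⊢
    exact ⟨mem_univ _, hr.2⟩
  · intro r _ r' _ h'
    exact mul_left_cancel₀ hc (add_right_cancel h')
  · intro u hu
    rw [mem_filter] at hu
    refine ⟨c⁻¹ * (u - d), ?_, by rw [mul_inv_cancel_left₀ hc]; ring⟩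
    rw [mem_filter]
    refine ⟨mem_univ _, ?_⟩
    rw [mul_inv_cancel_left₀ hc]
    rw [sub_add_cancel]
    exact hu.2

/-- abstract count of the pairs `(y, s)` -/
theorem card_pairs (q : ℕ) [Fact q.Prime] (Q L0 : ZMod q → ZMod q) (e : ZMod q) (he : e ≠ 0)
    (G : ZMod q → Prop) [DecidablePred G] :
    (univ.filter fun u : ZMod q × ZMod q => Q u.1 = 0 ∨ G (e * Q u.1 * u.2 + L0 u.1)).card =
      (univ.filter fun y => Q y = 0).card * q +
        (q - (univ.filter fun y => Q y = 0).card) * (univ.filter G).card := by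
  classical
  have h1 : (univ.filter fun u : ZMod q × ZMod q =>
      Q u.1 = 0 ∨ G (e * Q u.1 * u.2 + L0 u.1)).card =
      ∑ y : ZMod q, (univ.filter fun s : ZMod q => Q y = 0 ∨ G (e * Q y * s + L0 y)).card := by
    simp only [card_filter]
    rw [← univ_product_univ, sum_product]
  rw [h1]
  have h2 : ∀ y : ZMod q, (univ.filter fun s : ZMod q =>
      Q y = 0 ∨ G (e * Q y * s + L0 y)).card =
      if Q y = 0 then q else (univ.filter G).card := by
    intro y
    split_ifs with hy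
    · rw [filter_true_of_mem (fun _ _ => Or.inl hy), card_univ, ZMod.card]
    · rw [← card_affine q (e * Q y) (L0 y) (mul_ne_zero he hy) G]
      congr 1
      apply filter_congr
      intro s _
      simp [hy]
  rw [sum_congr rfl (fun y _ => h2 y), sum_ite, sum_const, sum_const, smul_eq_mul, smul_eq_mul]
  have h3 : (univ.filter fun y : ZMod q => ¬ Q y = 0).card =
      q - (univ.filter fun y => Q y = 0).card := by
    rw [filter_not, card_sdiff_of_subset (filter_subset _ _), card_univ, ZMod.card]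
  rw [h3]

open Classical in
/-- the classes of `(y, s)` modulo `q` which are hit -/
noncomputable def HC (j : Bool) (a M z q : ℕ) : Finset (ℤ × ℤ) :=
  (Ico (0 : ℤ) q ×ˢ Ico (0 : ℤ) q).filter (hit j a M z q)

theorem mem_HC {j : Bool} {a M z q : ℕ} {t : ℤ × ℤ} : t ∈ HC j a M z q ↔
    (t.1 ∈ Ico (0 : ℤ) q ∧ t.2 ∈ Ico (0 : ℤ) q) ∧ hit j a M z q t := by
  classical
  unfold HC
  rw [mem_filter, mem_product]

theorem hit_iff (j : Bool) (a M z q : ℕ) (t : ℤ × ℤ) : hit j a M z q t ↔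
    ((Qf j a t.1 M : ℤ) : ZMod q) = 0 ∨ (q ≤ z ∧
      ((((Lf j a t.1 t.2 M) ^ 2 + (M : ℤ) ^ 2) *
        ((Lf j a t.1 t.2 M) ^ 2 + 3 * (M : ℤ) ^ 2) : ℤ) : ZMod q) = 0) := by
  unfold hit
  rw [ZMod.intCast_zmod_eq_zero_iff_dvd, ZMod.intCast_zmod_eq_zero_iff_dvd]

theorem hit_congr (j : Bool) (a M z q : ℕ) (t t' : ℤ × ℤ) (h1 : t.1 ≡ t'.1 [ZMOD q])
    (h2 : t.2 ≡ t'.2 [ZMOD q]) : hit j a M z q t ↔ hit j a M z q t' := by
  have e1 : (t.1 : ZMod q) = t'.1 := (ZMod.intCast_eq_intCast_iff _ _ _).2 h1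
  have e2 : (t.2 : ZMod q) = t'.2 := (ZMod.intCast_eq_intCast_iff _ _ _).2 h2
  have e3 : ((Qf j a t.1 M : ℤ) : ZMod q) = ((Qf j a t'.1 M : ℤ) : ZMod q) := by
    unfold Qf
    cases j <;> simp [e1]
  have e4 : ((Lf j a t.1 t.2 M : ℤ) : ZMod q) = ((Lf j a t'.1 t'.2 M : ℤ) : ZMod q) := by
    unfold Lf
    cases j <;> simp [e1, e2, e3]
  rw [hit_iff, hit_iff, e3]
  push_cast
  rw [e4]

/-- the local density -/
noncomputable def gq (a z q : ℕ) : ℝ :=
  1 - (1 - (rt a q : ℝ) / q) * (if q ≤ z then 1 - (rF q : ℝ) / q else 1)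

theorem rt_le (a q : ℕ) : rt a q ≤ q := by
  unfold rt
  refine (card_filter_le _ _).trans ?_
  rw [card_range]

theorem card_HC (j : Bool) (a M z q : ℕ) (ha : a = 1 ∨ a = 3) (hq : q.Prime) (h3 : 3 < q)
    (hM : ¬ q ∣ M) : ((HC j a M z q).card : ℝ) = (q : ℝ) ^ 2 * gq a z q := by
  classical
  have : Fact q.Prime := ⟨hq⟩
  have hM0 : (M : ZMod q) ≠ 0 := by
    rw [Ne, ZMod.natCast_eq_zero_iff]; exact hM
  have ha0 : (a : ZMod q) ≠ 0 := by
    rw [Ne, ZMod.natCast_eq_zero_iff]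
    intro h
    have := Nat.le_of_dvd (by rcases ha with rfl | rfl <;> norm_num) h
    rcases ha with rfl | rfl <;> omega
  have hq0 : (q : ℝ) ≠ 0 := by exact_mod_cast hq.pos.ne'
  -- the functions over ZMod q
  set Q : ZMod q → ZMod q := fun y => if j then y ^ 2 + a * M ^ 2 else M ^ 2 + a * y ^ 2 with hQ
  set L0 : ZMod q → ZMod q := fun y => if j then y else - (a * y) with hL0
  set e : ZMod q := if j then -1 else 1 with he
  have he0 : e ≠ 0 := by
    rw [he]; split_ifs
    · exact neg_ne_zero.2 one_ne_zero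
    · exact one_ne_zero
  have hQt : (univ.filter fun y => Q y = 0).card = rt a q := by
    rw [rt_zmod]
    symm
    by_cases hj : j = true
    · apply card_scale q (M : ZMod q) hM0
      intro r
      simp only [hQ, hj, if_true]
      rw [show (M * r : ZMod q) ^ 2 + a * (M : ZMod q) ^ 2 = (M : ZMod q) ^ 2 * (r ^ 2 + a) by ring]
      rw [mul_eq_zero, or_iff_right (pow_ne_zero 2 hM0)]
    · apply card_scale q ((M : ZMod q) * (a : ZMod q)⁻¹) (mul_ne_zero hM0 (inv_ne_zero ha0))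
      intro r
      simp only [hQ, hj]
      have e1 : (M : ZMod q) ^ 2 + a * ((M : ZMod q) * (a : ZMod q)⁻¹ * r) ^ 2 =
          (M : ZMod q) ^ 2 * (a : ZMod q)⁻¹ * (r ^ 2 + a) := by
        field_simp
        ring
      simp only [if_false, Bool.false_eq_true, e1]
      rw [mul_eq_zero, or_iff_right (mul_ne_zero (pow_ne_zero 2 hM0) (inv_ne_zero ha0))]
  have hGF : (univ.filter fun l : ZMod q =>
      (l ^ 2 + (M : ZMod q) ^ 2) * (l ^ 2 + 3 * (M : ZMod q) ^ 2) = 0).card = rF q := by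
    rw [rF_zmod]
    symm
    apply card_scale q (M : ZMod q) hM0
    intro r
    rw [show ((M * r : ZMod q) ^ 2 + (M : ZMod q) ^ 2) * ((M * r : ZMod q) ^ 2 +
      3 * (M : ZMod q) ^ 2) = (M : ZMod q) ^ 4 * ((r ^ 2 + 1) * (r ^ 2 + 3)) by ring]
    rw [mul_eq_zero (a := (M : ZMod q) ^ 4), or_iff_right (pow_ne_zero 4 hM0)]
  set G : ZMod q → Prop := fun l => q ≤ z ∧
    (l ^ 2 + (M : ZMod q) ^ 2) * (l ^ 2 + 3 * (M : ZMod q) ^ 2) = 0 with hG
  have h1 : (HC j a M z q).card = (univ.filter fun u : ZMod q × ZMod q =>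
      Q u.1 = 0 ∨ G (e * Q u.1 * u.2 + L0 u.1)).card := by
    rw [← card_Ico_zmod q (fun u : ZMod q × ZMod q =>
      Q u.1 = 0 ∨ G (e * Q u.1 * u.2 + L0 u.1))]
    unfold HC
    congr 1
    apply filter_congr
    intro t _
    rw [hit_iff]
    have e3 : ((Qf j a t.1 M : ℤ) : ZMod q) = Q (t.1 : ZMod q) := by
      simp only [hQ]
      unfold Qf
      cases j <;> simp
    have e4 : ((Lf j a t.1 t.2 M : ℤ) : ZMod q) =
        e * Q (t.1 : ZMod q) * (t.2 : ZMod q) + L0 (t.1 : ZMod q) := by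
      unfold Lf
      by_cases hj : j = true
      · simp only [hj, he, hL0, if_true] at e3 ⊢
        push_cast
        rw [e3]; ring
      · simp only [hj, he, hL0] at e3 ⊢
        simp only [Bool.false_eq_true, if_false] at e3 ⊢
        push_cast
        rw [e3]; ring
    rw [e3]
    simp only [hG]
    push_cast
    rw [e4]
  rw [h1, card_pairs q Q L0 e he0 G, hQt]
  unfold gq
  have hrt : rt a q ≤ q := rt_le a q
  by_cases hz : q ≤ z
  · have h2 : (univ.filter G).card = rF q := by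
      rw [← hGF]
      congr 1
      apply filter_congr
      intro l _
      simp only [hG, hz, true_and]
    rw [h2, if_pos hz]
    push_cast [Nat.cast_sub hrt]
    field_simp
    ring
  · have h2 : (univ.filter G).card = 0 := by
      rw [card_eq_zero, filter_eq_empty_iff]
      intro l _ hl
      exact hz hl.1
    rw [h2, if_neg hz]
    push_cast
    field_simp
    ring

end Pool.Agent.D0H34.LP
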