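import Mathlib
import Pool.Agent.D0H34.LP.Cls

/-!
LP, module ONE, part 2: equidistribution of the hit pairs.
-/

set_option autoImplicit false

namespace Pool.Agent.D0H34.LP

open Finset Pool.Agent.D0H41.LP

theorem crt (T : Finset ℕ) (hT : ∀ q ∈ T, q.Prime) (f : ℕ → ℤ) :
    ∃ y0 : ℤ, ∀ q ∈ T, y0 ≡ f q [ZMOD q] := by
  have hpw : Set.Pairwise (T : Set ℕ) (Function.onFun Nat.Coprime (fun q : ℕ => q)) := by
    intro p hp q hq hpq
    exact (Nat.coprime_primes (hT p hp) (hT q hq)).2 hpq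
  obtain ⟨k, hk⟩ := Nat.chineseRemainderOfFinset (fun q : ℕ => ((f q) % (q : ℤ)).toNat)
    (fun q : ℕ => q) T (fun q hq => (hT q hq).ne_zero) hpw
  refine ⟨k, fun q hq => ?_⟩
  have h1 := hk q hq
  have h2 : ((k : ℕ) : ℤ) ≡ ((((f q) % (q : ℤ)).toNat : ℕ) : ℤ) [ZMOD q] :=
    (Int.natCast_modEq_iff).2 h1
  rw [Int.toNat_of_nonneg (Int.emod_nonneg _ (by exact_mod_cast (hT q hq).ne_zero))] at h2
  exact h2.trans (Int.mod_modEq _ _)

theorem modEq_prod (T : Finset ℕ) (hT : ∀ q ∈ T, q.Prime) (x y : ℤ) :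
    x ≡ y [ZMOD ((∏ q ∈ T, q : ℕ) : ℤ)] ↔ ∀ q ∈ T, x ≡ y [ZMOD q] := by
  constructor
  · intro h q hq
    exact h.of_dvd (by exact_mod_cast dvd_prod_of_mem (fun q => q) hq)
  · intro h
    rw [Int.modEq_iff_dvd]
    rw [Nat.cast_prod]
    apply Finset.prod_dvd_of_coprime
    · intro p hp q hq hpq
      exact Nat.isCoprime_iff_coprime.2 ((Nat.coprime_primes (hT p hp) (hT q hq)).2 hpq)
    · intro q hq
      exact (Int.modEq_iff_dvd).1 (h q hq)

open Classical in
/-- the number of pairs hit at all the primes of `T` -/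
theorem count_hit (j : Bool) (a M z V : ℕ) (ha : a = 1 ∨ a = 3) (T : Finset ℕ)
    (hT : ∀ q ∈ T, q.Prime ∧ 3 < q ∧ ¬ q ∣ M) (X E : ℝ)
    (hE : ∀ y0 s0 : ℤ, |((((Om M V).filter fun t => t.1 ≡ y0 [ZMOD ((∏ q ∈ T, q : ℕ) : ℤ)] ∧
      t.2 ≡ s0 [ZMOD ((∏ q ∈ T, q : ℕ) : ℤ)]).card : ℕ) : ℝ) - X| ≤ E) :
    |((((Om M V).filter fun t => ∀ q ∈ T, hit j a M z q t).card : ℕ) : ℝ) -
      X * ((∏ q ∈ T, q : ℕ) : ℝ) ^ 2 * ∏ q ∈ T, gq a z q| ≤
      ((∏ q ∈ T, q : ℕ) : ℝ) ^ 2 * E := by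
  set d : ℕ := ∏ q ∈ T, q with hd
  set S := (Om M V).filter fun t => ∀ q ∈ T, hit j a M z q t with hS
  set cl : ℤ × ℤ → (T → ℤ × ℤ) := fun t q => (t.1 % ((q : ℕ) : ℤ), t.2 % ((q : ℕ) : ℤ)) with hcl
  set B : Finset (T → ℤ × ℤ) := Fintype.piFinset fun q : T => HC j a M z (q : ℕ) with hB
  have hEnn : 0 ≤ E := (abs_nonneg _).trans (hE 0 0)
  have hmaps : ∀ t ∈ S, cl t ∈ B := by
    intro t ht
    rw [hS, mem_filter] at ht
    rw [hB, Fintype.mem_piFinset]
    intro q
    have hq := hT q q.2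
    have hq0 : ((q : ℕ) : ℤ) ≠ 0 := by exact_mod_cast hq.1.ne_zero
    have hqp : (0 : ℤ) < ((q : ℕ) : ℤ) := by exact_mod_cast hq.1.pos
    rw [mem_HC]
    refine ⟨⟨?_, ?_⟩, ?_⟩
    · rw [mem_Ico]; exact ⟨Int.emod_nonneg _ hq0, Int.emod_lt_of_pos _ hqp⟩
    · rw [mem_Ico]; exact ⟨Int.emod_nonneg _ hq0, Int.emod_lt_of_pos _ hqp⟩
    · exact (hit_congr j a M z q _ t (Int.mod_modEq _ _) (Int.mod_modEq _ _)).2 (ht.2 q q.2)
  have hcard := card_eq_sum_card_fiberwise (f := cl) (s := S) (t := B) hmaps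
  -- each fibre
  have hfib : ∀ c ∈ B, |((((S.filter fun t => cl t = c).card : ℕ)) : ℝ) - X| ≤ E := by
    intro c hc
    rw [hB, Fintype.mem_piFinset] at hc
    obtain ⟨y0, hy0⟩ := crt T (fun q hq => (hT q hq).1)
      (fun q => if h : q ∈ T then (c ⟨q, h⟩).1 else 0)
    obtain ⟨s0, hs0⟩ := crt T (fun q hq => (hT q hq).1)
      (fun q => if h : q ∈ T then (c ⟨q, h⟩).2 else 0)
    have h1 : (S.filter fun t => cl t = c) = (Om M V).filter fun t => t.1 ≡ y0 [ZMOD (d : ℤ)] ∧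
        t.2 ≡ s0 [ZMOD (d : ℤ)] := by
      rw [hS, filter_filter]
      apply filter_congr
      intro t _
      rw [hd, modEq_prod T (fun q hq => (hT q hq).1), modEq_prod T (fun q hq => (hT q hq).1)]
      constructor
      · rintro ⟨_, h⟩
        constructor
        · intro q hq
          have e1 := hy0 q hq
          rw [dif_pos hq] at e1
          have e2 : cl t ⟨q, hq⟩ = c ⟨q, hq⟩ := by rw [h]
          have e3 : t.1 % (q : ℤ) = (c ⟨q, hq⟩).1 := by rw [← e2]
          refine Int.ModEq.trans ?_ e1.symm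
          rw [← e3]
          exact (Int.mod_modEq _ _).symm
        · intro q hq
          have e1 := hs0 q hq
          rw [dif_pos hq] at e1
          have e2 : cl t ⟨q, hq⟩ = c ⟨q, hq⟩ := by rw [h]
          have e3 : t.2 % (q : ℤ) = (c ⟨q, hq⟩).2 := by rw [← e2]
          refine Int.ModEq.trans ?_ e1.symm
          rw [← e3]
          exact (Int.mod_modEq _ _).symm
      · rintro ⟨h1, h2⟩
        have h3 : cl t = c := by
          funext q
          have hc1 := hc q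
          rw [mem_HC, mem_Ico, mem_Ico] at hc1
          have e1 := (h1 q q.2).trans (hy0 q q.2)
          have e2 := (h2 q q.2).trans (hs0 q q.2)
          rw [dif_pos q.2] at e1 e2
          apply Prod.ext
          · change t.1 % ((q : ℕ) : ℤ) = (c q).1
            rw [e1]
            exact Int.emod_eq_of_lt hc1.1.1.1 hc1.1.1.2
          · change t.2 % ((q : ℕ) : ℤ) = (c q).2
            rw [e2]
            exact Int.emod_eq_of_lt hc1.1.2.1 hc1.1.2.2
        refine ⟨?_, h3⟩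
        intro q hq
        have e1 := (h1 q hq).trans (hy0 q hq)
        have e2 := (h2 q hq).trans (hs0 q hq)
        rw [dif_pos hq] at e1 e2
        exact (hit_congr j a M z q t (c ⟨q, hq⟩) e1 e2).2 (mem_HC.1 (hc ⟨q, hq⟩)).2
    rw [h1]
    exact hE y0 s0
  -- the number of classes
  have hBc : (B.card : ℝ) = (d : ℝ) ^ 2 * ∏ q ∈ T, gq a z q := by
    rw [hB, Fintype.card_piFinset, Nat.cast_prod]
    rw [prod_congr rfl (fun (q : T) _ => card_HC j a M z (q : ℕ) ha (hT q q.2).1 (hT q q.2).2.1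
      (hT q q.2).2.2)]
    rw [prod_mul_distrib, prod_pow]
    rw [hd, Nat.cast_prod]
    rw [← Finset.prod_coe_sort T (fun q => (q : ℝ)), ← Finset.prod_coe_sort T (fun q => gq a z q)]
  have hBle : (B.card : ℝ) ≤ (d : ℝ) ^ 2 := by
    have h1 : B.card ≤ d ^ 2 := by
      rw [hB, Fintype.card_piFinset, hd]
      rw [← Finset.prod_coe_sort T (fun q => q), ← prod_pow]
      apply prod_le_prod' 
      intro q _
      unfold HC
      refine (card_filter_le _ _).trans ?_
      rw [card_product, Int.card_Ico]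
      simp [sq]
    exact_mod_cast h1
  have h2 : (S.card : ℝ) - X * (d : ℝ) ^ 2 * ∏ q ∈ T, gq a z q =
      ∑ c ∈ B, ((((S.filter fun t => cl t = c).card : ℕ) : ℝ) - X) := by
    rw [sum_sub_distrib, sum_const, nsmul_eq_mul, hBc, hcard]
    push_cast
    ring
  rw [h2]
  calc |∑ c ∈ B, ((((S.filter fun t => cl t = c).card : ℕ) : ℝ) - X)|
      ≤ ∑ c ∈ B, |((((S.filter fun t => cl t = c).card : ℕ) : ℝ) - X)| := abs_sum_le_sum_abs _ _
    _ ≤ ∑ _c ∈ B, E := sum_le_sum hfib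
    _ = B.card * E := by rw [sum_const, nsmul_eq_mul]
    _ ≤ (d : ℝ) ^ 2 * E := mul_le_mul_of_nonneg_right hBle hEnn

/-- few roots of a quadratic polynomial -/
theorem rt_le_two (a q : ℕ) (hq : q.Prime) : rt a q ≤ 2 := by
  classical
  have : Fact q.Prime := ⟨hq⟩
  rw [rt_zmod]
  rcases (univ.filter fun r : ZMod q => r ^ 2 + a = 0).eq_empty_or_nonempty with h | ⟨r0, h⟩
  · rw [h]; simp
  · rw [mem_filter] at h
    refine (card_le_card (t := {r0, -r0}) ?_).trans card_le_two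
    intro r hr
    rw [mem_filter] at hr
    have h1 : (r - r0) * (r + r0) = 0 := by
      have : (r - r0) * (r + r0) = (r ^ 2 + a) - (r0 ^ 2 + a) := by ring
      rw [this, hr.2, h.2, sub_zero]
    rw [mem_insert, mem_singleton]
    rcases mul_eq_zero.1 h1 with h2 | h2
    · left; exact sub_eq_zero.1 h2
    · right; exact eq_neg_of_add_eq_zero_left h2

theorem rF_le_four (q : ℕ) (hq : q.Prime) : rF q ≤ 4 := by
  classical
  have : Fact q.Prime := ⟨hq⟩
  have h1 : rF q ≤ rt 1 q + rt 3 q := by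
    rw [rF_zmod, rt_zmod, rt_zmod]
    refine (card_le_card (t := (univ.filter fun r : ZMod q => r ^ 2 + ((1 : ℕ) : ZMod q) = 0) ∪
      (univ.filter fun r : ZMod q => r ^ 2 + ((3 : ℕ) : ZMod q) = 0)) ?_).trans (card_union_le _ _)
    intro r hr
    rw [mem_filter] at hr
    rw [mem_union, mem_filter, mem_filter]
    push_cast
    rcases mul_eq_zero.1 hr.2 with h | h
    · left; exact ⟨mem_univ _, h⟩
    · right; exact ⟨mem_univ _, h⟩
  have h2 := rt_le_two 1 q hq
  have h3 := rt_le_two 3 q hq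
  omega

theorem rF_lt (q : ℕ) (hq : q.Prime) : rF q < q := by
  rcases Nat.lt_or_ge q 5 with h | h
  · interval_cases q
    · exact absurd hq (by norm_num)
    · exact absurd hq (by norm_num)
    · decide
    · decide
    · exact absurd hq (by norm_num)
  · exact (rF_le_four q hq).trans_lt (by omega)

theorem rt_lt (a q : ℕ) (ha : a = 1 ∨ a = 3) (hq : q.Prime) : rt a q < q := by
  rcases Nat.lt_or_ge q 3 with h | h
  · interval_cases q
    · exact absurd hq (by norm_num)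
    · exact absurd hq (by norm_num)
    · rcases ha with rfl | rfl <;> decide
  · exact (rt_le_two a q hq).trans_lt (by omega)

end Pool.Agent.D0H34.LP
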