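import Mathlib
import Pool.Agent.D0H34.LP.Cnt
import Pool.Agent.H20R2.EN.FLem

/-!
LP, module ONE (statement `Pool.Agent.D0H41.LP.S_ONE`): the sieve for one modulus.
-/

set_option autoImplicit false

namespace Pool.Agent.D0H34.LP

open Finset Pool.Agent.D0H41.LP

/-- the factor `1 - g` -/
noncomputable def uq (a z q : ℕ) : ℝ :=
  (1 - (rt a q : ℝ) / q) * (if q ≤ z then 1 - (rF q : ℝ) / q else 1)

theorem one_sub_gq (a z q : ℕ) : 1 - gq a z q = uq a z q := by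
  unfold gq uq; ring

theorem uq_pos (a z q : ℕ) (ha : a = 1 ∨ a = 3) (hq : q.Prime) : 0 < uq a z q := by
  have hq0 : (0 : ℝ) < q := by exact_mod_cast hq.pos
  have h1 : (rt a q : ℝ) / q < 1 := by
    rw [div_lt_one hq0]; exact_mod_cast rt_lt a q ha hq
  have h2 : (rF q : ℝ) / q < 1 := by
    rw [div_lt_one hq0]; exact_mod_cast rF_lt q hq
  unfold uq
  split_ifs
  · exact mul_pos (by linarith) (by linarith)
  · exact mul_pos (by linarith) one_pos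

theorem uq_ge (a z q : ℕ) (hq : q.Prime) (h7 : 7 ≤ q) : 1 - 6 / (q : ℝ) ≤ uq a z q := by
  have hq0 : (0 : ℝ) < q := by exact_mod_cast hq.pos
  have h1 : (rt a q : ℝ) / q ≤ 2 / q := by
    apply div_le_div_of_nonneg_right _ hq0.le
    exact_mod_cast rt_le_two a q hq
  have h2 : (rF q : ℝ) / q ≤ 4 / q := by
    apply div_le_div_of_nonneg_right _ hq0.le
    exact_mod_cast rF_le_four q hq
  have h1' : (0 : ℝ) ≤ (rt a q : ℝ) / q := by positivity
  have h2' : (0 : ℝ) ≤ (rF q : ℝ) / q := by positivity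
  have h3 : (6 : ℝ) / q = 2 / q + 4 / q := by ring
  have h4 : (4 : ℝ) / q ≤ 1 := by
    rw [div_le_one hq0]; exact_mod_cast (by omega : 4 ≤ q)
  unfold uq
  split_ifs
  · rw [h3]; nlinarith
  · have : (0 : ℝ) ≤ 4 / q := by positivity
    rw [h3]; linarith

theorem uq_le_one (a z q : ℕ) (ha : a = 1 ∨ a = 3) (hq : q.Prime) : uq a z q ≤ 1 := by
  have hq0 : (0 : ℝ) < q := by exact_mod_cast hq.pos
  have h1 : (rt a q : ℝ) / q < 1 := by
    rw [div_lt_one hq0]; exact_mod_cast rt_lt a q ha hq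
  have h2 : (rF q : ℝ) / q < 1 := by
    rw [div_lt_one hq0]; exact_mod_cast rF_lt q hq
  have h1' : (0 : ℝ) ≤ (rt a q : ℝ) / q := by positivity
  have h2' : (0 : ℝ) ≤ (rF q : ℝ) / q := by positivity
  unfold uq
  split_ifs
  · exact mul_le_one₀ (by linarith) (by linarith) (by linarith)
  · rw [mul_one]; linarith

/-- comparison of the main terms -/
theorem main_cmp (a : ℕ) (ha : a = 1 ∨ a = 3) (z0 z z' M : ℕ) (h7 : 7 ≤ z0) (hz0 : z0 ≤ z)
    (hz : z ≤ z') (hM : M ≠ 0) :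
    (∏ q ∈ P z0, uq a z0 q) *
      ∏ q ∈ (P z').filter (fun q => z0 < q ∧ ¬ q ∣ M), uq a z q ≤
      VF z * Va a z' * ∏ q ∈ M.primeFactors.filter (fun q => z0 < q), (1 - 6 / (q : ℝ))⁻¹ := by
  have hPp : ∀ y q, q ∈ P y → q.Prime := fun y q hq => (mem_filter.1 hq).2
  have h1 : VF z * Va a z' = ∏ q ∈ P z', uq a z q := by
    unfold VF Va uq
    rw [prod_mul_distrib, mul_comm]
    congr 1
    rw [← prod_filter]
    apply prod_congr _ (fun _ _ => rfl)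
    unfold P
    ext q
    simp only [mem_filter, mem_Icc]
    constructor
    · rintro ⟨⟨h1, h2⟩, h3⟩; exact ⟨⟨⟨h1, h2.trans hz⟩, h3⟩, h2⟩
    · rintro ⟨⟨⟨h1, _⟩, h3⟩, h2⟩; exact ⟨⟨h1, h2⟩, h3⟩
  have h2 : ∏ q ∈ P z', uq a z q = (∏ q ∈ (P z').filter (fun q => q ≤ z0), uq a z q) *
      ((∏ q ∈ (P z').filter (fun q => z0 < q ∧ q ∣ M), uq a z q) *
       ∏ q ∈ (P z').filter (fun q => z0 < q ∧ ¬ q ∣ M), uq a z q) := by
    rw [← prod_filter_mul_prod_filter_not (P z') (fun q => q ≤ z0)]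
    congr 1
    rw [← prod_filter_mul_prod_filter_not ((P z').filter (fun q => ¬ q ≤ z0)) (fun q => q ∣ M)]
    rw [filter_filter, filter_filter]
    simp only [not_le]
  have h3 : ∏ q ∈ (P z').filter (fun q => q ≤ z0), uq a z q = ∏ q ∈ P z0, uq a z0 q := by
    apply prod_congr
    · unfold P
      ext q
      simp only [mem_filter, mem_Icc]
      constructor
      · rintro ⟨⟨⟨h1, _⟩, h3⟩, h2⟩; exact ⟨⟨h1, h2⟩, h3⟩
      · rintro ⟨⟨h1, h2⟩, h3⟩; exact ⟨⟨⟨h1, by omega⟩, h3⟩, h2⟩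
    · intro q hq
      have h4 : q ≤ z0 := (mem_Icc.1 (mem_filter.1 hq).1).2
      unfold uq
      rw [if_pos h4, if_pos (h4.trans hz0)]
  have h4 : ∏ q ∈ M.primeFactors.filter (fun q => z0 < q), (1 - 6 / (q : ℝ)) ≤
      ∏ q ∈ (P z').filter (fun q => z0 < q ∧ q ∣ M), uq a z q := by
    have h5 : (P z').filter (fun q => z0 < q ∧ q ∣ M) ⊆
        M.primeFactors.filter (fun q => z0 < q) := by
      intro q hq
      rw [mem_filter] at hq ⊢
      rw [Nat.mem_primeFactors]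
      exact ⟨⟨hPp _ _ hq.1, hq.2.2, hM⟩, hq.2.1⟩
    have hf : ∀ q ∈ M.primeFactors.filter (fun q => z0 < q), 0 < (1 - 6 / (q : ℝ)) ∧
        (1 - 6 / (q : ℝ)) ≤ 1 := by
      intro q hq
      rw [mem_filter] at hq
      have hq0 : (0 : ℝ) < q := by exact_mod_cast (Nat.prime_of_mem_primeFactors hq.1).pos
      have h6 : (6 : ℝ) / q < 1 := by
        rw [div_lt_one hq0]; exact_mod_cast (by omega : 6 < q)
      exact ⟨by linarith, by linarith [show (0 : ℝ) ≤ 6 / q by positivity]⟩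
    calc ∏ q ∈ M.primeFactors.filter (fun q => z0 < q), (1 - 6 / (q : ℝ))
        ≤ ∏ q ∈ (P z').filter (fun q => z0 < q ∧ q ∣ M), (1 - 6 / (q : ℝ)) :=
          prod_le_prod_of_subset_of_le_one h5 (fun q hq => (hf q hq).1.le)
            (fun q hq _ => (hf q hq).2)
      _ ≤ _ := by
          apply prod_le_prod (fun q hq => (hf q (h5 hq)).1.le)
          intro q hq
          rw [mem_filter] at hq
          exact uq_ge a z q (hPp _ _ hq.1) (by omega)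
  have h5 : 0 < ∏ q ∈ M.primeFactors.filter (fun q => z0 < q), (1 - 6 / (q : ℝ)) := by
    apply prod_pos
    intro q hq
    rw [mem_filter] at hq
    have hq0 : (0 : ℝ) < q := by exact_mod_cast (Nat.prime_of_mem_primeFactors hq.1).pos
    have h6 : (6 : ℝ) / q < 1 := by
      rw [div_lt_one hq0]; exact_mod_cast (by omega : 6 < q)
    linarith
  rw [prod_inv_distrib, ← div_eq_mul_inv, le_div_iff₀ h5, h1, h2, h3]
  have h6 : 0 ≤ ∏ q ∈ P z0, uq a z0 q :=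
    prod_nonneg (fun q hq => (uq_pos a z0 q ha (hPp _ _ hq)).le)
  have h7 : 0 ≤ ∏ q ∈ (P z').filter (fun q => z0 < q ∧ ¬ q ∣ M), uq a z q :=
    prod_nonneg (fun q hq => (uq_pos a z q ha (hPp _ _ (mem_filter.1 hq).1)).le)
  calc (∏ q ∈ P z0, uq a z0 q) *
        (∏ q ∈ (P z').filter (fun q => z0 < q ∧ ¬ q ∣ M), uq a z q) *
        ∏ q ∈ M.primeFactors.filter (fun q => z0 < q), (1 - 6 / (q : ℝ))
      ≤ (∏ q ∈ P z0, uq a z0 q) *
        (∏ q ∈ (P z').filter (fun q => z0 < q ∧ ¬ q ∣ M), uq a z q) *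
        ∏ q ∈ (P z').filter (fun q => z0 < q ∧ q ∣ M), uq a z q :=
        mul_le_mul_of_nonneg_left h4 (mul_nonneg h6 h7)
    _ = _ := by ring

/-- the doubly exponential scale -/
theorem exists_J (z' : ℕ) (h : 2 < z') : ∃ J : ℕ, z' ≤ 2 ^ 2 ^ J ∧ 2 ^ 2 ^ J ≤ z' ^ 2 := by
  have hex : ∃ J : ℕ, z' ≤ 2 ^ 2 ^ J := by
    refine ⟨z', ?_⟩
    exact (Nat.lt_two_pow_self).le.trans ((Nat.lt_two_pow_self).le.trans
      (Nat.pow_le_pow_right (by norm_num) le_rfl))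
  classical
  refine ⟨Nat.find hex, Nat.find_spec hex, ?_⟩
  rcases Nat.eq_zero_or_pos (Nat.find hex) with h0 | h0
  · rw [h0]; norm_num; nlinarith
  · obtain ⟨k, hk⟩ : ∃ k, Nat.find hex = k + 1 := ⟨Nat.find hex - 1, by omega⟩
    have h1 : ¬ z' ≤ 2 ^ 2 ^ k := Nat.find_min hex (by omega)
    push Not at h1
    rw [hk]
    calc (2 : ℕ) ^ 2 ^ (k + 1) = (2 ^ 2 ^ k) ^ 2 := by rw [← pow_mul, ← pow_succ]
      _ ≤ z' ^ 2 := Nat.pow_le_pow_left h1.le 2

/-- transfer of the pairs to natural numbers -/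
theorem card_enc (S : Finset (ℤ × ℤ)) (p : ℤ × ℤ → Prop) [DecidablePred p]
    [DecidablePred (fun n : ℕ => p (((Encodable.decode n : Option (ℤ × ℤ)).getD (0, 0))))] :
    ∑ _n ∈ (S.image (Encodable.encode : ℤ × ℤ → ℕ)).filter
      (fun n => p (((Encodable.decode n : Option (ℤ × ℤ)).getD (0, 0)))), (1 : ℝ) =
      ((S.filter p).card : ℝ) := by
  classical
  rw [sum_const, nsmul_eq_mul, mul_one]
  congr 1
  rw [filter_image, card_image_of_injective _ Encodable.encode_injective]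
  congr 1
  apply filter_congr
  intro t _
  rw [Encodable.encodek, Option.getD_some]

/-- the number of the sets of primes with bounded product -/
theorem card_sets (Q : Finset ℕ) (hQ : ∀ q ∈ Q, q.Prime) (D : ℕ) :
    (Q.powerset.filter (fun T : Finset ℕ => ∏ p ∈ T, p ≤ D)).card ≤ D := by
  have h1 : (Q.powerset.filter (fun T : Finset ℕ => ∏ p ∈ T, p ≤ D)).card ≤ (Icc 1 D).card := by
    apply card_le_card_of_injOn (fun T => ∏ p ∈ T, p)
    · intro T hT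
      rw [mem_coe, mem_filter, mem_powerset] at hT
      rw [mem_coe, mem_Icc]
      exact ⟨prod_pos (fun q hq => (hQ q (hT.1 hq)).pos), hT.2⟩
    · intro T hT T' hT' h
      rw [mem_coe, mem_filter, mem_powerset] at hT hT'
      have h1 := Nat.primeFactors_prod (s := T) (fun q hq => hQ q (hT.1 hq))
      have h2 := Nat.primeFactors_prod (s := T') (fun q hq => hQ q (hT'.1 hq))
      have h3 : ∏ p ∈ T, p = ∏ p ∈ T', p := h
      rw [← h1, ← h2, h3]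
  rwa [Nat.card_Icc, Nat.add_sub_cancel] at h1

theorem t_ONE : S_KLO → S_ONE := by
  classical
  rintro ⟨C, hC, hK⟩
  obtain ⟨C0, hC0, hF⟩ := Pool.Agent.H20R2.fLem 6
  set z0 : ℕ := max C0 7 with hz0d
  have hz7 : 7 ≤ z0 := le_max_right _ _
  have hzC : C0 ≤ z0 := le_max_left _ _
  have hPp : ∀ y q, q ∈ P y → q.Prime := fun y q hq => (mem_filter.1 hq).2
  -- the constant from the small primes
  set c1 : ℝ := ∏ q ∈ P z0, uq 1 z0 q with hc1
  set c3 : ℝ := ∏ q ∈ P z0, uq 3 z0 q with hc3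
  have hc1p : 0 < c1 := prod_pos (fun q hq => uq_pos 1 z0 q (Or.inl rfl) (hPp _ _ hq))
  have hc3p : 0 < c3 := prod_pos (fun q hq => uq_pos 3 z0 q (Or.inr rfl) (hPp _ _ hq))
  set c : ℝ := min c1 c3 with hc
  have hcp : 0 < c := lt_min hc1p hc3p
  refine ⟨2 / c + 3 * (C + 1), z0, 10 * C0 ^ 2 + 2, by positivity, by omega, ?_⟩
  intro a j ha M1 M2 V hM1 hM2 hcop z z' hz hzz'
  set M : ℕ := M1 * M2 with hMd
  have hM1p : 0 < M1 := Nat.pos_of_ne_zero hM1.ne_zero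
  have hM0 : M ≠ 0 := (Nat.mul_pos hM1p hM2).ne'
  have hMpos : (0 : ℝ) < (M : ℝ) := by exact_mod_cast Nat.pos_of_ne_zero hM0
  have hM1le : (1 : ℝ) ≤ (M : ℝ) := by exact_mod_cast Nat.pos_of_ne_zero hM0
  obtain ⟨J, hJ1, hJ2⟩ := exists_J z' (by omega)
  set Q : Finset ℕ := (P z').filter (fun q => z0 < q ∧ ¬ q ∣ M) with hQ
  have hQp : ∀ q ∈ Q, q.Prime ∧ z0 < q ∧ ¬ q ∣ M ∧ q ≤ z' := by
    intro q hq
    rw [hQ, mem_filter] at hq
    exact ⟨hPp _ _ hq.1, hq.2.1, hq.2.2, (mem_Icc.1 (mem_filter.1 hq.1).1).2⟩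
  set A : ℝ := (2 * V + 1) * (Nat.totient M : ℝ) / M with hA
  have hA0 : 0 ≤ A := by positivity
  have hA1 : A ≤ 2 * V + 1 := by
    rw [hA, div_le_iff₀ hMpos]
    apply mul_le_mul_of_nonneg_left _ (by positivity)
    exact_mod_cast Nat.totient_le M
  set E : ℕ → ℝ := fun d => C * M2 * (M1.divisors.card : ℝ) ^ 3 * Real.sqrt M1 *
      (Real.log ((M * d : ℕ) : ℝ) + 2) ^ 2 +
    (2 * V + 1) * (M.divisors.card : ℝ) / ((M : ℝ) * (d : ℝ)) with hE
  obtain ⟨D, hD⟩ : ∃ D : ℕ, D = (2 ^ 2 ^ J) ^ (C0 * C0) := ⟨_, rfl⟩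
  have hD1 : 1 ≤ D := by rw [hD]; exact Nat.one_le_pow _ _ (by positivity)
  -- hypothesis of the fundamental lemma
  have hyp := hF C0 J z0 Q (fun q => gq a z q) le_rfl hzC
    (fun q hq => ⟨(hQp q hq).1, (hQp q hq).2.1, (hQp q hq).2.2.2.trans hJ1⟩)
    (by
      intro q hq
      obtain ⟨h1, h2, h3, h4⟩ := hQp q hq
      have e1 := uq_ge a z q h1 (by omega)
      have e2 := uq_le_one a z q ha h1
      have e3 := one_sub_gq a z q
      have hq1 : (0 : ℝ) < (q : ℝ) - 1 := by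
        have : (1 : ℝ) < q := by exact_mod_cast h1.one_lt
        linarith
      refine ⟨by linarith, ?_⟩
      have e4 : (6 : ℝ) / q ≤ 6 / ((q : ℝ) - 1) :=
        div_le_div_of_nonneg_left (by norm_num) hq1 (by linarith)
      push_cast
      linarith)
    ((Om M V).image (Encodable.encode : ℤ × ℤ → ℕ)) (fun _ => 1)
    (fun q n => hit j a M z q ((Encodable.decode n : Option (ℤ × ℤ)).getD (0, 0))) A
    (fun T => ((∏ q ∈ T, q : ℕ) : ℝ) ^ 2 * E (∏ q ∈ T, q)) (fun _ _ => zero_le_one) hA0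
    (by
      intro T hT _
      have hTp : ∀ q ∈ T, q.Prime ∧ 3 < q ∧ ¬ q ∣ M := fun q hq =>
        ⟨(hQp q (hT hq)).1, by have := (hQp q (hT hq)).2.1; omega, (hQp q (hT hq)).2.2.1⟩
      have hd0 : 0 < ∏ q ∈ T, q := prod_pos (fun q hq => (hTp q hq).1.pos)
      have hd0' : (0 : ℝ) < ((∏ q ∈ T, q : ℕ) : ℝ) := by exact_mod_cast hd0
      have hcopd : Nat.Coprime M (∏ q ∈ T, q) := by
        apply Nat.Coprime.prod_right
        intro q hq
        exact ((Nat.Prime.coprime_iff_not_dvd (hTp q hq).1).2 (hTp q hq).2.2).symm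
      have h1 := count_hit j a M z V ha T hTp
        ((2 * V + 1) * (Nat.totient M : ℝ) / ((M : ℝ) * ((∏ q ∈ T, q : ℕ) : ℝ) ^ 2))
        (E (∏ q ∈ T, q)) (by
          intro y0 s0
          have h2 := hK M1 M2 (∏ q ∈ T, q) V hM1 hM2 hd0 hcop hcopd y0 s0
          exact h2)
      have h2 := card_enc (Om M V) (fun t => ∀ q ∈ T, hit j a M z q t)
      rw [h2]
      refine le_trans (le_of_eq ?_) h1
      congr 2
      rw [hA]
      field_simp)
  have h3 := card_enc (Om M V) (fun t => ∀ q ∈ Q, ¬ hit j a M z q t)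
  simp only at hyp
  rw [h3, ← hD] at hyp
  have h4 : ((((Om M V).filter fun t => ∀ q ∈ P z', z0 < q → ¬ q ∣ M →
      ¬ hit j a M z q t).card : ℕ) : ℝ) =
      (((Om M V).filter fun t => ∀ q ∈ Q, ¬ hit j a M z q t).card : ℝ) := by
    congr 2
    apply filter_congr
    intro t _
    rw [hQ]
    simp only [mem_filter]
    constructor
    · rintro h q ⟨h1, h2, h3⟩; exact h q h1 h2 h3
    · intro h q h1 h2 h3; exact h q ⟨h1, h2, h3⟩
  rw [h4]
  have h5 := (abs_le.1 hyp).2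
  simp only [one_sub_gq] at h5
  clear hyp hK hF h3 h4
  -- main term
  set Pi0 : ℝ := ∏ q ∈ Q, uq a z q with hPi
  have hPi0 : 0 ≤ Pi0 := prod_nonneg (fun q hq => (uq_pos a z q ha (hQp q hq).1).le)
  set W : ℝ := VF z * Va a z' * ∏ q ∈ M.primeFactors.filter (fun q => z0 < q),
    (1 - 6 / (q : ℝ))⁻¹ with hW
  have hPiW : c * Pi0 ≤ W := by
    have h6 := main_cmp a ha z0 z z' M hz7 hz hzz' hM0
    refine le_trans (mul_le_mul_of_nonneg_right ?_ hPi0) h6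
    rcases ha with rfl | rfl
    · exact min_le_left _ _
    · exact min_le_right _ _
  have hW0 : 0 ≤ W := le_trans (mul_nonneg hcp.le hPi0) hPiW
  have hPiW' : Pi0 ≤ W / c := by
    rw [le_div_iff₀ hcp]; linarith
  have hhalf : (1 / 2 : ℝ) ^ C0 ≤ 1 := pow_le_one₀ (by norm_num) (by norm_num)
  have h7 : (1 / 2 : ℝ) ^ C0 * (A * Pi0) + A * Pi0 ≤ 2 / c * (2 * V + 1) * W := by
    have e1 : 0 ≤ A * Pi0 := mul_nonneg hA0 hPi0
    have e2 : A * Pi0 ≤ (2 * V + 1) * (W / c) := mul_le_mul hA1 hPiW' hPi0 (by positivity)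
    have e3 : (1 / 2 : ℝ) ^ C0 * (A * Pi0) ≤ A * Pi0 := mul_le_of_le_one_left e1 hhalf
    have e4 : 2 / c * (2 * V + 1) * W = 2 * ((2 * V + 1) * (W / c)) := by ring
    rw [e4]; linarith
  -- error term
  clear hPiW hPiW' hhalf
  clear_value c1 c3 c A Pi0 Q W
  set B : ℝ := M2 * (M1.divisors.card : ℝ) ^ 3 * Real.sqrt M1 * (Real.log (M : ℝ) + 2) ^ 2 +
    (2 * V + 1) * (M.divisors.card : ℝ) / (M : ℝ) with hB
  have hlogM : 0 ≤ Real.log (M : ℝ) := Real.log_nonneg hM1le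
  have hV1 : (0 : ℝ) ≤ 2 * V + 1 := by positivity
  have hB0 : 0 ≤ B := add_nonneg (mul_nonneg (mul_nonneg (mul_nonneg (Nat.cast_nonneg _)
    (pow_nonneg (Nat.cast_nonneg _) _)) (Real.sqrt_nonneg _)) (sq_nonneg _))
    (div_nonneg (mul_nonneg hV1 (Nat.cast_nonneg _)) hMpos.le)
  have hDr : (1 : ℝ) ≤ D := by exact_mod_cast hD1
  have herr : ∀ T ∈ Q.powerset.filter (fun T : Finset ℕ => ∏ p ∈ T, p ≤ D),
      ((∏ q ∈ T, q : ℕ) : ℝ) ^ 2 * E (∏ q ∈ T, q) ≤ (D : ℝ) ^ 4 * ((C + 1) * B) := by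
    intro T hT
    rw [mem_filter, mem_powerset] at hT
    set d : ℕ := ∏ q ∈ T, q with hd
    have hd0 : 0 < d := prod_pos (fun q hq => (hQp q (hT.1 hq)).1.pos)
    have hd1 : (1 : ℝ) ≤ d := by exact_mod_cast hd0
    have hdD : (d : ℝ) ≤ D := by exact_mod_cast hT.2
    have e1 : Real.log ((M * d : ℕ) : ℝ) + 2 ≤ (Real.log (M : ℝ) + 2) * D := by
      push_cast
      rw [Real.log_mul hMpos.ne' (by positivity)]
      have e2 : Real.log (d : ℝ) ≤ (D : ℝ) - 1 := by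
        have := Real.log_le_sub_one_of_pos (show (0 : ℝ) < d by positivity)
        linarith
      nlinarith
    have e1' : 0 ≤ Real.log ((M * d : ℕ) : ℝ) + 2 := by
      have : (1 : ℝ) ≤ ((M * d : ℕ) : ℝ) := by
        exact_mod_cast Nat.mul_pos (Nat.pos_of_ne_zero hM0) hd0
      linarith [Real.log_nonneg this]
    have e3 : (Real.log ((M * d : ℕ) : ℝ) + 2) ^ 2 ≤ (D : ℝ) ^ 2 * (Real.log (M : ℝ) + 2) ^ 2 := by
      have := pow_le_pow_left₀ e1' e1 2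
      rw [mul_pow] at this
      linarith
    have e4 : (2 * V + 1) * (M.divisors.card : ℝ) / ((M : ℝ) * (d : ℝ)) ≤
        (2 * V + 1) * (M.divisors.card : ℝ) / (M : ℝ) := by
      apply div_le_div_of_nonneg_left (by positivity) hMpos
      exact le_mul_of_one_le_right hMpos.le hd1
    set X1 : ℝ := (M2 : ℝ) * (M1.divisors.card : ℝ) ^ 3 * Real.sqrt M1 with hX1
    have hX10 : 0 ≤ X1 := by positivity
    set X2 : ℝ := (2 * V + 1) * (M.divisors.card : ℝ) / (M : ℝ) with hX2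
    have hX20 : 0 ≤ X2 := by positivity
    have e5 : E d ≤ (D : ℝ) ^ 2 * ((C + 1) * B) := by
      have e6 : E d = C * X1 * (Real.log ((M * d : ℕ) : ℝ) + 2) ^ 2 +
          (2 * V + 1) * (M.divisors.card : ℝ) / ((M : ℝ) * (d : ℝ)) := by
        rw [hE, hX1]; ring
      have e7 : B = X1 * (Real.log (M : ℝ) + 2) ^ 2 + X2 := by rw [hB]
      rw [e6, e7]
      have e8 : C * X1 * (Real.log ((M * d : ℕ) : ℝ) + 2) ^ 2 ≤
          C * X1 * ((D : ℝ) ^ 2 * (Real.log (M : ℝ) + 2) ^ 2) :=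
        mul_le_mul_of_nonneg_left e3 (by positivity)
      have e9 : X2 ≤ (D : ℝ) ^ 2 * X2 := le_mul_of_one_le_left hX20 (one_le_pow₀ hDr)
      have e10 : 0 ≤ (D : ℝ) ^ 2 * (X1 * (Real.log (M : ℝ) + 2) ^ 2) := by positivity
      have e11 : 0 ≤ (D : ℝ) ^ 2 * X2 := by positivity
      nlinarith
    have hE0 : 0 ≤ E d := by
      rw [hE]; positivity
    calc (d : ℝ) ^ 2 * E d ≤ (D : ℝ) ^ 2 * ((D : ℝ) ^ 2 * ((C + 1) * B)) :=
          mul_le_mul (pow_le_pow_left₀ (by positivity) hdD 2) e5 hE0 (by positivity)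
      _ = (D : ℝ) ^ 4 * ((C + 1) * B) := by ring
  have hsum : ∑ T ∈ Q.powerset.filter (fun T : Finset ℕ => ∏ p ∈ T, p ≤ D),
      ((∏ q ∈ T, q : ℕ) : ℝ) ^ 2 * E (∏ q ∈ T, q) ≤ (D : ℝ) ^ 5 * ((C + 1) * B) := by
    refine (sum_le_sum herr).trans ?_
    rw [sum_const, nsmul_eq_mul]
    have h8 := card_sets Q (fun q hq => (hQp q hq).1) D
    have h9 : ((Q.powerset.filter (fun T : Finset ℕ => ∏ p ∈ T, p ≤ D)).card : ℝ) ≤ D := by
      exact_mod_cast h8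
    calc _ ≤ (D : ℝ) * ((D : ℝ) ^ 4 * ((C + 1) * B)) :=
          mul_le_mul_of_nonneg_right h9 (by positivity)
      _ = _ := by ring
  have hz'r : (1 : ℝ) ≤ z' := by exact_mod_cast (by omega : 1 ≤ z')
  have hJz : (J : ℝ) + 2 ≤ 3 * (z' : ℝ) ^ 2 := by
    have h8 : J ≤ z' ^ 2 := (Nat.lt_two_pow_self.le.trans Nat.lt_two_pow_self.le).trans hJ2
    have h9 : (J : ℝ) ≤ (z' : ℝ) ^ 2 := by exact_mod_cast h8
    have h10 : (1 : ℝ) ≤ (z' : ℝ) ^ 2 := one_le_pow₀ hz'r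
    linarith
  have hDz : (D : ℝ) ^ 5 ≤ (z' : ℝ) ^ (10 * C0 ^ 2) := by
    have h8 : D ^ 5 ≤ z' ^ (10 * C0 ^ 2) := by
      rw [hD]
      calc ((2 ^ 2 ^ J) ^ (C0 * C0)) ^ 5 ≤ ((z' ^ 2) ^ (C0 * C0)) ^ 5 :=
            Nat.pow_le_pow_left (Nat.pow_le_pow_left hJ2 _) _
        _ = z' ^ (10 * C0 ^ 2) := by rw [← pow_mul, ← pow_mul]; congr 1; ring
    exact_mod_cast h8
  have hsum0 : 0 ≤ (D : ℝ) ^ 5 * ((C + 1) * B) := by positivity
  have h11 : ((J : ℝ) + 2) * ∑ T ∈ Q.powerset.filter (fun T : Finset ℕ => ∏ p ∈ T, p ≤ D),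
      ((∏ q ∈ T, q : ℕ) : ℝ) ^ 2 * E (∏ q ∈ T, q) ≤
      3 * (C + 1) * (z' : ℝ) ^ (10 * C0 ^ 2 + 2) * B := by
    calc _ ≤ ((J : ℝ) + 2) * ((D : ℝ) ^ 5 * ((C + 1) * B)) :=
          mul_le_mul_of_nonneg_left hsum (by positivity)
      _ ≤ (3 * (z' : ℝ) ^ 2) * ((z' : ℝ) ^ (10 * C0 ^ 2) * ((C + 1) * B)) := by
          apply mul_le_mul hJz _ hsum0 (by positivity)
          exact mul_le_mul_of_nonneg_right hDz (by positivity)
      _ = _ := by rw [pow_add]; ring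
  have hVW : 0 ≤ (2 * (V : ℝ) + 1) * W := mul_nonneg (by positivity) hW0
  have hzB : 0 ≤ (z' : ℝ) ^ (10 * C0 ^ 2 + 2) * B := by positivity
  have h12 : (((Om M V).filter fun t => ∀ q ∈ Q, ¬ hit j a M z q t).card : ℝ) ≤
      2 / c * (2 * V + 1) * W + 3 * (C + 1) * (z' : ℝ) ^ (10 * C0 ^ 2 + 2) * B := by
    linarith
  refine h12.trans ?_
  have h13 : (2 / c + 3 * (C + 1)) * (2 * (V : ℝ) + 1) * (VF z * Va a z') *
      ∏ q ∈ M.primeFactors.filter (fun q => z0 < q), (1 - 6 / (q : ℝ))⁻¹ =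
      (2 / c + 3 * (C + 1)) * ((2 * (V : ℝ) + 1) * W) := by rw [hW]; ring
  rw [h13]
  have h14 : 0 ≤ 2 / c := by positivity
  have h15 : 0 ≤ 3 * (C + 1) := by positivity
  have h16 : 2 / c * (2 * (V : ℝ) + 1) * W = 2 / c * ((2 * (V : ℝ) + 1) * W) := by ring
  have h17 : 3 * (C + 1) * (z' : ℝ) ^ (10 * C0 ^ 2 + 2) * B =
      3 * (C + 1) * ((z' : ℝ) ^ (10 * C0 ^ 2 + 2) * B) := by ring
  have h18 : (2 / c + 3 * (C + 1)) * (z' : ℝ) ^ (10 * C0 ^ 2 + 2) * B =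
      (2 / c + 3 * (C + 1)) * ((z' : ℝ) ^ (10 * C0 ^ 2 + 2) * B) := by ring
  rw [h16, h17, h18]
  nlinarith

end Pool.Agent.D0H34.LP
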